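import Pool.Agent.H71.GW.Targets

/-!
# Lattice Golomb-Welch, classes `0` and `1`: module ASM

The necessary condition, from the targets CNT, LST, LV1, LIN, VAL and IDN.
-/

set_option autoImplicit false

open Finset
open scoped Classical

namespace Pool.Agent.H14.GW.Asm

open Pool.Agent.H71.GW

lemma nu_nonneg (m c : ℕ) : 0 ≤ nu m c := by
  unfold nu; positivity

/-- sum of the first level over all vectors -/
lemma core (hCNT : T_CNT) (hLV1 : T_LV1) (hLIN : T_LIN) (hVAL : T_VAL) (hIDN : T_IDN)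
    {ι : Type} [Fintype ι] {s i a : ℕ} (S : Sys ι s i) (κ : ι × Bool → ℕ) (EW E0 k : ℕ)
    (hs : 1 ≤ s) (ha : 1 ≤ a) (hE : 1 ≤ E0) (hκ : Val κ) (hw : wt κ + a = s + 1)
    (hl : len κ + i = wt κ) (hm : s + 2 ≤ Fintype.card ι) :
    ((a + s + len κ : ℕ) : ℤ) * nu (Fintype.card ι) (len κ + a) ≤
      eva (Fintype.card ι) (CUP s a (len κ) EW E0 k) (len κ + (a + 1)) -
        eva (Fintype.card ι) (CGAIN s a (len κ) EW E0 k) (len κ + a) := by
  have hvalZ : ∀ z ∈ S.Z0 ∪ S.Z1, Val z := by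
    intro z hz
    rcases Finset.mem_union.1 hz with h | h
    · exact S.val0 z h
    · exact S.val1 z h
  have hdisj : Disjoint S.Z0 S.Z1 := by
    rw [Finset.disjoint_left]
    intro z h0 h1
    have e0 := S.wt0 z h0
    have e1 := S.wt1 z h1
    omega
  have c2 := hCNT ι (s + 2) (S.Z0 ∪ S.Z1) hvalZ S.r2
  have c1 := hCNT ι (s + 1) S.Z0 S.val0 S.r1
  have v2 := (hVAL ι s a EW E0 k (fun κ' => ∑ z ∈ S.Z0 ∪ S.Z1, (psi (s + 2) κ' z : ℤ)) κ hm hκ hw
    (fun κ' h => (c2 κ').1 h)).1 (fun κ' h h' => (c2 κ').2 h h')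
  have v1 := (hVAL ι s a EW E0 k (fun κ' => ∑ z ∈ S.Z0, (psi (s + 1) κ' z : ℤ)) κ hm hκ hw
    (fun κ' h => (c1 κ').1 h)).2 (fun κ' h h' => (c1 κ').2 h h')
  have l2 := (hLIN (ι × Bool) (S.Z0 ∪ S.Z1) (fun z κ' => (psi (s + 2) κ' z : ℤ)) κ s a EW E0 k).1
  have l1 := (hLIN (ι × Bool) S.Z0 (fun z κ' => (psi (s + 1) κ' z : ℤ)) κ s a EW E0 k).2
  have hsum : (∑ z ∈ S.Z0 ∪ S.Z1, ((ex κ z * psi (s + 1) κ z : ℕ) : ℤ)) +
      ∑ z ∈ S.Z0, GAIN s a EW E0 k (fun κ' => (psi (s + 1) κ' z : ℤ)) κ ≤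
      ∑ z ∈ S.Z0 ∪ S.Z1, UP s a EW E0 k (fun κ' => (psi (s + 2) κ' z : ℤ)) κ := by
    rw [Finset.sum_union hdisj, Finset.sum_union hdisj]
    have h0 : (∑ z ∈ S.Z0, ((ex κ z * psi (s + 1) κ z : ℕ) : ℤ)) +
        ∑ z ∈ S.Z0, GAIN s a EW E0 k (fun κ' => (psi (s + 1) κ' z : ℤ)) κ ≤
        ∑ z ∈ S.Z0, UP s a EW E0 k (fun κ' => (psi (s + 2) κ' z : ℤ)) κ := by
      rw [← Finset.sum_add_distrib]
      exact Finset.sum_le_sum fun z hz =>
        (hLV1 (ι × Bool) κ z s a EW E0 k hs ha hE hw).2 (S.wt0 z hz)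
    have h1 : (∑ z ∈ S.Z1, ((ex κ z * psi (s + 1) κ z : ℕ) : ℤ)) ≤
        ∑ z ∈ S.Z1, UP s a EW E0 k (fun κ' => (psi (s + 2) κ' z : ℤ)) κ :=
      Finset.sum_le_sum fun z hz =>
        (hLV1 (ι × Bool) κ z s a EW E0 k hs ha hE hw).1 (S.wt1 z hz)
    linarith
  rw [← l2, ← l1] at hsum
  have hmul := mul_le_mul_of_nonneg_right hsum (nu_nonneg (Fintype.card ι) (len κ))
  rw [add_mul, v1, v2] at hmul
  have hid := hIDN ι s i a S κ hκ hw hl hm
  linarith

lemma fin_step (hLST : T_LST) (m s a l EW E0 k c : ℕ) (hc : c = l + (a + 1))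
    (h : ((a + s + l : ℕ) : ℤ) * nu m (l + a) ≤
      eva m (CUP s a l EW E0 k) (l + (a + 1)) - eva m (CGAIN s a l EW E0 k) (l + a)) :
    0 ≤ eva m (TT s a l EW E0 k) c := by
  obtain ⟨hadd, hsmul, hsh, -⟩ := hLST
  unfold TT
  rw [hadd, hadd, hsmul, hsh, hc]
  have e1 : l + (a + 1) - 1 = l + a := by omega
  rw [e1]
  have e2 : eva m [0, -((a + s + l : ℕ) : ℤ)] (l + (a + 1)) =
      -(((a + s + l : ℕ) : ℤ) * nu m (l + a)) := by
    simp only [eva]
    rw [e1]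
    ring
  rw [e2]
  linarith

theorem asm (hCNT : T_CNT) (hLST : T_LST) (hLV1 : T_LV1) (hLIN : T_LIN) (hVAL : T_VAL)
    (hIDN : T_IDN) : T_ASM := by
  intro ι _ s hs hm EW E0 k hE
  constructor
  · rintro ⟨S⟩
    have hw0 : wt (0 : ι × Bool → ℕ) = 0 := by simp [wt]
    have hl0 : len (0 : ι × Bool → ℕ) = 0 := by simp [len]
    have := core hCNT hLV1 hLIN hVAL hIDN (a := s + 1) S (0 : ι × Bool → ℕ) EW E0 k (by omega)
      (by omega) hE (fun j => Or.inl rfl) (by rw [hw0]; omega) (by rw [hw0, hl0]) hm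
    rw [hl0] at this
    exact fin_step hLST _ _ _ _ _ _ _ _ (by omega) this
  · rintro ⟨S⟩
    have hpos : 0 < Fintype.card ι := by omega
    obtain ⟨j0⟩ := Fintype.card_pos_iff.1 hpos
    have hwκ : wt (Pi.single (j0, true) 2 : ι × Bool → ℕ) = 2 := by
      unfold wt
      rw [Finset.sum_eq_single (j0, true)]
      · simp
      · intro b _ hb
        simp [Pi.single_eq_of_ne hb]
      · intro h; exact absurd (Finset.mem_univ _) h
    have hlκ : len (Pi.single (j0, true) 2 : ι × Bool → ℕ) = 1 := by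
      unfold len
      rw [Finset.card_eq_one]
      refine ⟨(j0, true), ?_⟩
      ext b
      simp only [Finset.mem_filter, Finset.mem_univ, true_and, Finset.mem_singleton]
      constructor
      · intro h
        by_contra hb
        exact h (Pi.single_eq_of_ne hb _)
      · rintro rfl
        simp
    have hval : Val (Pi.single (j0, true) 2 : ι × Bool → ℕ) := by
      intro j
      right
      apply Pi.single_eq_of_ne
      intro h
      have := congrArg Prod.snd h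
      simp at this
    have := core hCNT hLV1 hLIN hVAL hIDN (a := s - 1) S
      (Pi.single (j0, true) 2 : ι × Bool → ℕ) EW E0 k (by omega)
      (by omega) hE hval (by rw [hwκ]; omega) (by rw [hwκ, hlκ]) hm
    rw [hlκ] at this
    exact fin_step hLST _ _ _ _ _ _ _ _ (by omega) this

end Pool.Agent.H14.GW.Asm
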